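import Pool.Agent.W500.CS.Stm2

set_option autoImplicit false

open Metric Set Filter Topology

namespace Pool.Agent.W748.CQ.PER

open Pool.Agent.W500.CS

/-- the half plane -/
def HH (c : ℝ) : Set ℂ := {ζ : ℂ | ζ.re < c}

lemma isOpen_HH (c : ℝ) : IsOpen (HH c) := isOpen_lt Complex.continuous_re continuous_const

lemma convex_HH (c : ℝ) : Convex ℝ (HH c) := by
  have := convex_halfSpace_lt (𝕜 := ℝ) (f := fun z : ℂ => z.re) (Complex.reLm.isLinear) c
  exact this

lemma nonempty_HH (c : ℝ) : (HH c).Nonempty := ⟨((c - 1 : ℝ) : ℂ), by simp [HH]⟩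

/-- the period -/
noncomputable def TT : ℂ := 2 * Real.pi * Complex.I

lemma TT_re : TT.re = 0 := by simp [TT]

lemma exp_TT : Complex.exp TT = 1 := Complex.exp_two_pi_mul_I

lemma add_mem {c : ℝ} {ζ : ℂ} (h : ζ ∈ HH c) (n : ℤ) : ζ + n * TT ∈ HH c := by
  have : ((n : ℂ) * TT).re = 0 := by
    rw [Complex.mul_re, TT_re]; simp
  simp only [HH, mem_setOf_eq, Complex.add_re, this, add_zero]
  exact h

lemma exp_shift (ζ : ℂ) (n : ℤ) : Complex.exp (ζ + n * TT) = Complex.exp ζ := by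
  rw [Complex.exp_add]
  have : Complex.exp (n * TT) = 1 := by
    rw [Complex.exp_int_mul, exp_TT, one_zpow]
  rw [this, mul_one]

/-- one step of monodromy -/
lemma mono {d : ℕ} {c : ℝ} (Z1 : ℂ → Set ℂ) (A : Fin d → ℂ → ℂ)
    (hZ : ∀ ζ, Z1 (ζ + TT) = Z1 ζ)
    (hd : ∀ i, DifferentiableOn ℂ (A i) (HH c))
    (hne : ∀ i j, i ≠ j → ∀ w ∈ HH c, A i w ≠ A j w)
    (hA : ∀ w ∈ HH c, Z1 w = {x | ∃ i, x = A i w}) (i : Fin d) :
    ∃ j, ∀ ζ ∈ HH c, A i (ζ + TT) = A j ζ := by
  have hT : ∀ ζ ∈ HH c, ζ + TT ∈ HH c := fun ζ h => by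
    have := add_mem h 1
    simpa using this
  have h1 : ∀ ζ : HH c, ∃ j, A i (ζ + TT) = A j ζ := by
    intro ζ
    have h2 : A i (ζ + TT) ∈ Z1 (ζ + TT) := by
      rw [hA _ (hT _ ζ.2)]; exact ⟨i, rfl⟩
    rw [hZ, hA _ ζ.2] at h2
    exact h2
  choose f hf using h1
  have hcl : ∀ j, IsClosed {ζ : HH c | A i (ζ + TT) = A j ζ} := by
    intro j
    apply isClosed_eq
    · have : ContinuousOn (fun ζ : ℂ => A i (ζ + TT)) (HH c) := by
        refine (hd i).continuousOn.comp (by fun_prop) (fun ζ h => hT ζ h)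
      exact continuousOn_iff_continuous_domRestrict.1 this
    · exact continuousOn_iff_continuous_domRestrict.1 (hd j).continuousOn
  have hfc : Continuous f := by
    rw [continuous_iff_isClosed]
    intro s _
    have : f ⁻¹' s = ⋃ j ∈ s, {ζ : HH c | A i (ζ + TT) = A j ζ} := by
      ext ζ
      simp only [mem_preimage, mem_iUnion, mem_setOf_eq, exists_prop]
      constructor
      · intro h
        exact ⟨f ζ, h, hf ζ⟩
      · rintro ⟨j, hj, h⟩
        have : f ζ = j := by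
          by_contra hcon
          exact hne _ _ hcon ζ ζ.2 (by rw [← hf ζ, h])
        rwa [this]
    rw [this]
    exact Set.Finite.isClosed_biUnion (Set.toFinite s) (fun j _ => hcl j)
  have : PreconnectedSpace (HH c) :=
    Subtype.preconnectedSpace (convex_HH c).isPreconnected
  obtain ⟨ζ₀, h0⟩ := nonempty_HH c
  refine ⟨f ⟨ζ₀, h0⟩, fun ζ h => ?_⟩
  have := PreconnectedSpace.constant inferInstance hfc (x := ⟨ζ, h⟩) (y := ⟨ζ₀, h0⟩)
  rw [← this]
  exact hf ⟨ζ, h⟩

theorem main : S_BRANCH → S_PER := by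
  intro hB ρ₀ z₀ Z d hρ₀ hloc
  set c := Real.log ρ₀ with hc
  have hnorm : ∀ ζ ∈ HH c, 0 < ‖(z₀ + Complex.exp ζ) - z₀‖ ∧ ‖(z₀ + Complex.exp ζ) - z₀‖ < ρ₀ := by
    intro ζ h
    rw [add_sub_cancel_left, Complex.norm_exp]
    refine ⟨Real.exp_pos _, ?_⟩
    rw [← Real.lt_log_iff_exp_lt hρ₀]
    exact h
  obtain ⟨A, hAd, hAne, hAZ⟩ := hB (HH c) (fun ζ => Z (z₀ + Complex.exp ζ)) d (isOpen_HH c)
    (convex_HH c) (nonempty_HH c) (by
      intro ζ hζ
      obtain ⟨r, hr, A, h1, h2, h3⟩ := hloc _ (hnorm ζ hζ).1 (hnorm ζ hζ).2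
      have hcont : Continuous fun w : ℂ => z₀ + Complex.exp w := by fun_prop
      obtain ⟨r1, hr1, h4⟩ := Metric.isOpen_iff.1 (isOpen_HH c) ζ hζ
      obtain ⟨r2, hr2, h5⟩ := Metric.isOpen_iff.1 (hcont.isOpen_preimage _ (isOpen_ball
        (x := z₀ + Complex.exp ζ) (ε := r))) ζ (by simpa using hr)
      have hsub : ball ζ (min r1 r2) ⊆ ball ζ r2 := ball_subset_ball (min_le_right _ _)
      refine ⟨min r1 r2, lt_min hr1 hr2, (ball_subset_ball (min_le_left _ _)).trans h4,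
        fun i w => A i (z₀ + Complex.exp w), ?_, ?_, ?_⟩
      · intro i
        refine (h1 i).comp (by fun_prop) ?_
        intro w hw
        exact h5 (hsub hw)
      · intro i j hij w hw
        exact h2 i j hij _ (h5 (hsub hw))
      · intro w hw
        exact h3 _ (h5 (hsub hw)))
  have hshift : ∀ ζ : ℂ, Z (z₀ + Complex.exp (ζ + TT)) = Z (z₀ + Complex.exp ζ) := by
    intro ζ
    have := exp_shift ζ 1
    rw [Int.cast_one, one_mul] at this
    rw [this]
  have hm := fun i => mono (c := c) (fun ζ => Z (z₀ + Complex.exp ζ)) A hshift hAd hAne hAZ i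
  choose σ hσ using hm
  have hT : ∀ ζ ∈ HH c, ζ + TT ∈ HH c := fun ζ h => by
    have := add_mem h 1
    simpa using this
  have hinj : Function.Injective σ := by
    intro i j hij
    by_contra hne
    obtain ⟨ζ₀, h0⟩ := nonempty_HH c
    refine hAne i j hne _ (hT _ h0) ?_
    rw [hσ i _ h0, hσ j _ h0, hij]
  have hbij : Function.Bijective σ := Finite.injective_iff_bijective.1 hinj
  set e : Equiv.Perm (Fin d) := Equiv.ofBijective σ hbij with he
  have hiter : ∀ n : ℕ, ∀ i, ∀ ζ ∈ HH c, A i (ζ + (n : ℤ) * TT) = A ((e ^ n) i) ζ := by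
    intro n
    induction n with
    | zero => intro i ζ _; simp
    | succ n ih =>
      intro i ζ hζ
      have h1 : ζ + ((n + 1 : ℕ) : ℤ) * TT = (ζ + (n : ℤ) * TT) + TT := by push_cast; ring
      rw [h1, hσ i _ (add_mem hζ n), ih (σ i) ζ hζ, pow_succ]
      rfl
  set N : ℕ := Fintype.card (Equiv.Perm (Fin d)) with hN
  have hNpos : 0 < N := Fintype.card_pos
  have hper1 : ∀ i, ∀ ζ ∈ HH c, A i (ζ + (N : ℤ) * TT) = A i ζ := by
    intro i ζ hζ
    rw [hiter N i ζ hζ, hN, pow_card_eq_one]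
    rfl
  have hperN : ∀ k : ℕ, ∀ i, ∀ ζ ∈ HH c, A i (ζ + ((N * k : ℕ) : ℤ) * TT) = A i ζ := by
    intro k
    induction k with
    | zero => intro i ζ _; simp
    | succ k ih =>
      intro i ζ hζ
      have h1 : ζ + ((N * (k + 1) : ℕ) : ℤ) * TT = (ζ + ((N * k : ℕ) : ℤ) * TT) + (N : ℤ) * TT := by
        push_cast; ring
      rw [h1, hper1 i _ (add_mem hζ _), ih i ζ hζ]
  have hperZ : ∀ k : ℤ, ∀ i, ∀ ζ ∈ HH c, A i (ζ + (N * k : ℂ) * TT) = A i ζ := by
    intro k i ζ hζ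
    obtain ⟨m, rfl | rfl⟩ := k.eq_nat_or_neg
    · have := hperN m i ζ hζ
      push_cast at this ⊢
      exact this
    · have h0 := add_mem hζ (-((N * m : ℕ) : ℤ))
      have := hperN m i _ h0
      push_cast at this ⊢
      have e1 : ζ + (N : ℂ) * -(m : ℂ) * TT = ζ + -((N : ℂ) * m) * TT := by ring
      have e2 : ζ + -((N : ℂ) * m) * TT + (N : ℂ) * m * TT = ζ := by ring
      rw [e1, ← this, e2]
  have hmem : ∀ (ρ : ℝ) (s : ℂ), 0 < ρ → ρ ^ N ≤ ρ₀ → s ∈ ball (0 : ℂ) ρ \ {0} →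
      ∀ l : ℂ, Complex.exp l = s → (N : ℂ) * l ∈ HH c := by
    intro ρ s hρ hρN hs l hl
    have hs0 : s ≠ 0 := fun h => hs.2 h
    have h1 : ‖s‖ < ρ := by simpa using hs.1
    have h2 : ‖s‖ = Real.exp l.re := by rw [← hl, Complex.norm_exp]
    have h3 : ((N : ℂ) * l).re = N * l.re := by simp
    show ((N : ℂ) * l).re < c
    rw [h3, hc, Real.lt_log_iff_exp_lt hρ₀]
    have h4 : Real.exp (N * l.re) = ‖s‖ ^ N := by rw [h2, ← Real.exp_nat_mul]
    rw [h4]
    exact lt_of_lt_of_le (pow_lt_pow_left₀ h1 (norm_nonneg _) hNpos.ne') hρN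
  refine ⟨N, hNpos, fun i s => A i (N * Complex.log s), ?_⟩
  intro ρ hρ hρN
  refine ⟨?_, ?_, ?_⟩
  · intro i s1 hs1
    have hs0 : s1 ≠ 0 := fun h => hs1.2 h
    apply DifferentiableAt.differentiableWithinAt
    set l : ℂ → ℂ := fun s => Complex.log (s / s1) + Complex.log s1 with hl
    have hexp : ∀ s : ℂ, s ≠ 0 → Complex.exp (l s) = s := by
      intro s hs
      rw [hl]
      simp only
      rw [Complex.exp_add, Complex.exp_log (div_ne_zero hs hs0), Complex.exp_log hs0]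
      field_simp
    have hld : DifferentiableAt ℂ l s1 := by
      rw [hl]
      refine DifferentiableAt.add_const _ (DifferentiableAt.clog ?_ ?_)
      · fun_prop
      · rw [div_self hs0]; exact Complex.one_mem_slitPlane
    have hopen : IsOpen (ball (0 : ℂ) ρ \ {0}) := isOpen_ball.sdiff isClosed_singleton
    have hev : (fun s => A i (N * Complex.log s)) =ᶠ[𝓝 s1] fun s => A i (N * l s) := by
      filter_upwards [hopen.mem_nhds hs1] with s hs
      have hsne : s ≠ 0 := fun h => hs.2 h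
      have h1 : Complex.exp (Complex.log s) = Complex.exp (l s) := by
        rw [Complex.exp_log hsne, hexp s hsne]
      obtain ⟨k, hk⟩ := Complex.exp_eq_exp_iff_exists_int.1 h1
      have h2 : (N : ℂ) * Complex.log s = (N * l s) + (N * k : ℂ) * TT := by
        rw [hk, TT]; ring
      rw [h2]
      exact hperZ k i _ (hmem ρ s hρ hρN hs _ (hexp s hsne))
    refine DifferentiableAt.congr_of_eventuallyEq ?_ hev
    have h3 : DifferentiableAt ℂ (A i) (N * l s1) :=
      (hAd i).differentiableAt ((isOpen_HH c).mem_nhds (hmem ρ s1 hρ hρN hs1 _ (hexp s1 hs0)))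
    exact DifferentiableAt.comp s1 (f := fun s => (N : ℂ) * l s) h3 (hld.const_mul _)
  · intro i j hij s hs
    have hsne : s ≠ 0 := fun h => hs.2 h
    exact hAne i j hij _ (hmem ρ s hρ hρN hs _ (Complex.exp_log hsne))
  · intro s hs
    have hsne : s ≠ 0 := fun h => hs.2 h
    have h1 := hAZ _ (hmem ρ s hρ hρN hs _ (Complex.exp_log hsne))
    have h2 : Complex.exp (N * Complex.log s) = s ^ N := by
      rw [Complex.exp_nat_mul, Complex.exp_log hsne]
    rw [h2] at h1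
    exact h1

end Pool.Agent.W748.CQ.PER
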